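import Pool.Agent.PWX.AllC2

/-!
Let `84 k + 285 ≤ g`, `n ≥ 0`, and let `K` be a subgroup of index at most `2 ^ k` of the
fundamental group `Pi1 g n` of the surface of genus `g` with `n` punctures; `K` need not be normal,
so that it is the group of an arbitrary connected cover of degree at most `2 ^ k`.  Then:

* `K` is generated by the nonseparating simple closed curves in it, the elements
  `T.act (loopA 0)` of `K` with `T` in the pure mapping class group `Mcg g n` (of the surface with
  `n + 1` punctures, acting on `Pi1 g n`);
* for every finite index subgroup `H` of `Mcg g n` which contains the point pushes along these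
  curves, every homomorphism from `H` to the integers vanishes on all point pushes in `H`.

In particular (`K = {x | pushPt x ∈ H}`) this holds for every finite index subgroup `H` whose
intersection with the point pushing subgroup has index at most `2 ^ k` there.
-/

namespace Pool.Agent.Results.MP_41330a_gt.AllCovers

open Pool.Agent.PWI

theorem result (g n k : ℕ) (hg : 84 * k + 285 ≤ g)
    (K : Subgroup (Pi1 g n)) [hF : K.FiniteIndex] (hK : K.index ≤ 2 ^ k) :
    K = Subgroup.closure {y | y ∈ K ∧ ∃ T : Mcg g n, y = T.act (loopA 0)} ∧
    ∀ H : Subgroup (Mcg g n), H.FiniteIndex →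
      (∀ T : Mcg g n, T.act (loopA 0) ∈ K → pushPt (T.act (loopA 0)) ∈ H) →
      ∀ (f : H →* Multiplicative ℤ) (x : Pi1 g n) (hx : pushPt x ∈ H), f ⟨pushPt x, hx⟩ = 1 :=
  @Pool.Agent.PWX.all_covers2 g n k hg K hF hK

end Pool.Agent.Results.MP_41330a_gt.AllCovers
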