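import Pool.Agent.PWX.Cost2

/-!
Let `g ≥ 3`, `n ≥ 0`, let `H` be a finite index subgroup of the pure mapping class group
`Mcg g n` (pure mapping classes of the genus `g` surface with `n + 1` punctures, acting on the
fundamental group `Pi1 g n` of the surface with `n` punctures), and let `M` be a normal subgroup of
finite index of `Pi1 g n` such that `H` contains the point pushes along all commutators of
elements of `M`.  Suppose one of the following.

* The index of `M` is at most `2 ^ k` and `71 k + 11 ≤ g` (no other condition: every deck group).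
* `M` contains the kernel of an action of `Pi1 g n` on `d` points, `d (d - 1) + 2 ≤ g`.
* `M` is joined by a chain of subgroups of total cost `c ≤ g - 2` to a subgroup `P` containing the
  first `c + 2` handles up to a mapping class; a normal step with cyclic quotient costs `1`, an
  arbitrary step of index `e` costs `2 (e - 1)`, a normal step of index at most `2 ^ k` costs
  `71 k + 9`, and an arbitrary step of index at most `2 ^ k` costs `90 k + 301`.

Then every homomorphism from `H` to the integers vanishes on all point pushes in `H`.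
-/

namespace Pool.Agent.Results.MP_41330a_gt.PointPushLinearCost

open Pool.Agent.PWI Pool.Agent.PWX

theorem result (g n : ℕ) (hg : 3 ≤ g) (H : Subgroup (Mcg g n)) [H.FiniteIndex]
    (M : Subgroup (Pi1 g n)) [M.Normal] [M.FiniteIndex]
    (hM : (∃ k : ℕ, 71 * k + 11 ≤ g ∧ M.index ≤ 2 ^ k) ∨
      (∃ (d : ℕ) (φ : Pi1 g n →* Equiv.Perm (Fin d)), d * (d - 1) + 2 ≤ g ∧ φ.ker ≤ M) ∨
      ∃ (P : Subgroup (Pi1 g n)) (c : ℕ), c + 2 ≤ g ∧ LinCost2 P M c ∧ HasHandles P (c + 2))
    (hH : ∀ x ∈ M, ∀ y ∈ M, pushPt (x * y * x⁻¹ * y⁻¹) ∈ H)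
    (f : H →* Multiplicative ℤ) (x : Pi1 g n) (hx : pushPt x ∈ H) : f ⟨pushPt x, hx⟩ = 1 := by
  rcases hM with ⟨k, hk, hi⟩ | ⟨d, φ, hd, hφ⟩ | ⟨P, c, hc, hch, hP⟩
  · exact main7 g n hg H M k hk hi hH f x hx
  · exact main3 g n hg H M d φ hd hφ hH f x hx
  · exact main8 g n hg H M P c hc hch hP hH f x hx

end Pool.Agent.Results.MP_41330a_gt.PointPushLinearCost
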