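import Pool.Agent.Helper52.RC.MainN

/-!
# MP_41330a_gt: random covers of large degree

For all large `d` (uniformly in `g ≥ 3` and `n ≥ 1`) almost all homomorphisms `φ` of the fundamental
group `Pi1 g n` of the surface of genus `g` with `n` punctures to the symmetric group of degree `d` are
`Good`: transitive, and for every finite index subgroup `H` of the mapping class group `Mcg g n` which
contains the point pushes along those powers of nonseparating simple closed curves `T.act (loopA 0)`
which fix some point `i` under `φ`, every homomorphism `H → Z` is trivial on the point pushes in `H`.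
-/

namespace Pool.Agent.Results.MP_41330a_gt.RandomCovers

open Pool.Agent.PWI Pool.Agent.Helper52.RC Equiv

theorem result (ε : ℝ) (hε : 0 < ε) :
    ∃ d₀ : ℕ, ∀ d ≥ d₀, ∀ g n : ℕ, 3 ≤ g → 1 ≤ n →
      (Nat.card {φ : Pi1 g n →* Perm (Fin d) // ¬ Good φ} : ℝ) ≤
        ε * Nat.card (Pi1 g n →* Perm (Fin d)) :=
  Pool.Agent.Helper52.RC.mainN ε hε

end Pool.Agent.Results.MP_41330a_gt.RandomCovers
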