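import Pool.Agent.RSC.Fin3

/-!
# MP_41330a_gt: almost all covers with deck group `SL(2, p)`, in a fixed genus

For every `k` and `ε > 0`, all large primes `p`, all `g ≥ 7 (k + 4)` and `n ≥ 1`, and all `g ≥ 7 (k + 4) + 2` and
`n ≥ 0`, all but a fraction `ε` of the homomorphisms `φ` from the fundamental group `Pi1 g n` to `SL(2, p)` are
`Killed k φ`: for every normal finite index subgroup `M` joined to the kernel of `φ` by a chain of subgroups of
cost `k` and every finite index subgroup `H` of the mapping class group which contains the point pushes along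
the commutators of `M`, every homomorphism `H → Z` is trivial on all point pushes in `H`.
-/

namespace Pool.Agent.Results.MP_41330a_gt.RandomSLTwoCovers

open Pool.Agent.PWI Pool.Agent.RSC Matrix

theorem result (k : ℕ) (ε : ℝ) (hε : 0 < ε) : ∃ p₀ : ℕ, ∀ p ≥ p₀, p.Prime →
    ∀ g n : ℕ, (7 * (k + 4) ≤ g ∧ 1 ≤ n) ∨ 7 * (k + 4) + 2 ≤ g →
    (Nat.card {φ : Pi1 g n →* SpecialLinearGroup (Fin 2) (ZMod p) // ¬ Killed k φ} : ℝ) ≤
      ε * Nat.card (Pi1 g n →* SpecialLinearGroup (Fin 2) (ZMod p)) := by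
  obtain ⟨p₀, h⟩ := Pool.Agent.RSC.mainAll3 k ε hε
  exact ⟨p₀, fun p hp hprime => h p hp ⟨hprime⟩⟩

end Pool.Agent.Results.MP_41330a_gt.RandomSLTwoCovers
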